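import Pool.Agent.Lib.MP_ae5b4e_an_TR.Defs

/-!
# MP_ae5b4e_an (regime A): spiral trajectories, good points

`γ = γ₀ exp (u t)`, `Re u > 0`, `Im u ≠ 0` (e.g. `u = 1 + i`).
-/

open Complex Filter Topology Set MeasureTheory

namespace PorTS

open PorTR (Hm Strip Fam)

/-- `l` (on `t ≥ 0`) is the descending trajectory of `q` through `P`:
`q (l t) = q P * exp (-2 u t)`; all its points are regular points of `q`. -/
structure Traj (u : ℂ) (q : ℂ → ℂ) (P : ℂ) (l : ℝ → ℂ) : Prop where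
  start : l 0 = P
  cont : ContinuousOn l (Ici 0)
  low : ∀ t, 0 ≤ t → l t ∈ Hm
  val : ∀ t : ℝ, 0 ≤ t → q (l t) = q P * cexp (-2 * u * t)
  reg : ∀ t, 0 ≤ t → deriv q (l t) ≠ 0

/-- the point `P` is good: the weighted length of its trajectory is finite -/
def Good (u : ℂ) (q : ℂ → ℂ) (P : ℂ) : Prop :=
  ∃ l : ℝ → ℂ, Traj u q P l ∧
    IntegrableOn (fun t : ℝ => Real.exp (-(u.re * t)) * (1 + t) * ‖deriv l t‖) (Ioi 0)

/-- no critical value of `q` on the spiral through `q0` -/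
def Generic (u : ℂ) (q : ℂ → ℂ) (q0 : ℂ) : Prop :=
  ∀ z ∈ Hm, deriv q z = 0 → ∀ r : ℝ, q z ≠ q0 * cexp (-2 * u * r)

/-- the value of `q` at a tip for the parameter `γ`: `γ ^ 2 q = - e ^ 2 / 4` -/
noncomputable def tipq (γ : ℝ) : ℂ := -((Real.exp 2 / (4 * γ ^ 2) : ℝ) : ℂ)

end PorTS
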