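import Pool.Agent.Lib.MP_ae5b4e_an_TS.Uniq
import Pool.Agent.Lib.MP_ae5b4e_an_TR.Count

open Complex Filter Topology Set

namespace PorTS

open PorTR (Hm Strip Fam)

variable {u : ℂ}

theorem norm_cexp_sp (u : ℂ) (s : ℝ) : ‖cexp (-2 * u * s)‖ = Real.exp (-2 * u.re * s) := by
  rw [Complex.norm_exp]
  simp

theorem tendsto_cexp_sp {u : ℂ} (hu : 0 < u.re) (c : ℂ) :
    Tendsto (fun t : ℝ => c * cexp (-2 * u * t)) atTop (𝓝 0) := by
  rw [tendsto_zero_iff_norm_tendsto_zero]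
  have h1 : Tendsto (fun t : ℝ => Real.exp (-2 * u.re * t)) atTop (𝓝 0) := by
    apply Real.tendsto_exp_atBot.comp
    exact tendsto_id.const_mul_atTop_of_neg (by linarith)
  have h2 := h1.const_mul ‖c‖
  rw [mul_zero] at h2
  refine h2.congr fun t => ?_
  rw [norm_mul, norm_cexp_sp]

theorem norm_cexp_sub_le {u : ℂ} (hu : 0 < u.re) {a b : ℝ} (hab : a ≤ b) :
    ‖cexp (-2 * u * b) - cexp (-2 * u * a)‖ ≤
      ‖u‖ / u.re * (Real.exp (-2 * u.re * a) - Real.exp (-2 * u.re * b)) := by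
  have hder : ∀ x : ℝ, HasDerivAt (fun x : ℝ => cexp (-2 * u * x) - cexp (-2 * u * a))
      (cexp (-2 * u * x) * (-2 * u)) x := by
    intro x
    have h1 : HasDerivAt (fun s : ℝ => -2 * u * (s : ℂ)) (-2 * u) x := by
      simpa using (Complex.ofRealCLM.hasDerivAt (x := x)).const_mul (-2 * u)
    exact h1.cexp.sub_const _
  have hB : ∀ x : ℝ, HasDerivAt (fun x : ℝ =>
      ‖u‖ / u.re * (Real.exp (-2 * u.re * a) - Real.exp (-2 * u.re * x)))
      (‖u‖ / u.re * -(Real.exp (-2 * u.re * x) * (-2 * u.re))) x := by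
    intro x
    have h1 : HasDerivAt (fun s : ℝ => -2 * u.re * s) (-2 * u.re) x := by
      simpa using (hasDerivAt_id x).const_mul (-2 * u.re)
    exact (h1.exp.const_sub _).const_mul _
  have h := image_norm_le_of_norm_deriv_right_le_deriv_boundary
    (f := fun x : ℝ => cexp (-2 * u * x) - cexp (-2 * u * a)) (a := a) (b := b)
    (f' := fun x => cexp (-2 * u * x) * (-2 * u))
    (fun x _ => (hder x).continuousAt.continuousWithinAt)
    (fun x _ => (hder x).hasDerivWithinAt) (by simp) hB (fun x _ => by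
      rw [norm_mul, norm_cexp_sp, norm_mul]
      have h2 : ‖(-2 : ℂ)‖ = 2 := by simp
      rw [h2]
      apply le_of_eq
      field_simp)
  exact h ⟨hab, le_rfl⟩

/-- Depth of a trajectory (copy of `PorTR.Traj.deep`; `‖cexp (-2 * u * s)‖ = exp (-2 Re u s) ≤ 1`). -/
theorem Traj.deep (hu : 0 < u.re) {W : Set (ℂ → ℂ)} {C d0 Ce kap : ℝ} (F : Fam W C d0 Ce kap)
    {q : ℂ → ℂ} (hq : q ∈ W) {P : ℂ} (hP : 2 * d0 ≤ -P.im) (hk : ‖q P‖ < kap) {l : ℝ → ℂ}
    (h : Traj u q P l) : ∀ t, 0 ≤ t → d0 < -(l t).im := by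
  intro t ht
  refine F.deep hq (h.cont.mono Icc_subset_Ici_self) (by rw [h.start]; exact hP)
    (fun s hs => ?_) t ⟨ht, le_rfl⟩
  rw [h.val s hs.1, norm_mul, norm_cexp_sp]
  have h1 : Real.exp (-2 * u.re * s) ≤ 1 :=
    Real.exp_le_one_iff.mpr (by nlinarith [hs.1, mul_nonneg hu.le hs.1])
  calc ‖q P‖ * Real.exp (-2 * u.re * s) ≤ ‖q P‖ * 1 := by gcongr
    _ < kap := by linarith

/-- (2.12) EXISTENCE. Let `P` have depth `≥ 2 d0`, `0 < |q P| < kap`, and let there be no critical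
point `z` of `q` in `Hm` with `q z = q P * exp (-2 u r)`, `0 ≤ r`. Then the trajectory of `P` exists
for all `t ≥ 0`, and it is finite or infinite.

Proof. Copy of `PorTR.Fam.dich` with `g t := q P * cexp (-2 * u * t)`, `‖g t‖ = ‖q P‖ * exp (-2 Re u t)`
(`PorTR.exists_lift`, `PorTR.Fam.deep`, `PorTR.Fam.depth_le`, `PorTR.Fam.tendsto_left`,
`PorTR.Fam.tendsto_top`). -/
theorem Fam.dich (hu : 0 < u.re) {W : Set (ℂ → ℂ)} {C d0 Ce kap : ℝ} (F : Fam W C d0 Ce kap)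
    {q : ℂ → ℂ} (hq : q ∈ W) {P : ℂ} (hP : 2 * d0 ≤ -P.im) (h0 : q P ≠ 0) (hk : ‖q P‖ < kap)
    (hreg : ∀ z ∈ Hm, deriv q z = 0 → ∀ r : ℝ, 0 ≤ r → q z ≠ q P * cexp (-2 * u * r)) :
    ∃ l : ℝ → ℂ, Traj u q P l ∧ (∀ t, 0 ≤ t → d0 < -(l t).im) ∧
      (Tendsto (fun t => (l t).im) atTop atBot ∨ ∃ z ∈ Hm, Tendsto l atTop (𝓝 z)) := by
  have hd0 := F.d0_pos
  have hPH : P ∈ Hm := by
    change P.im < 0
    linarith
  have hqP0 : 0 < ‖q P‖ := norm_pos_iff.mpr h0
  set g : ℝ → ℂ := fun t => q P * cexp (-2 * u * t) with hg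
  have hgc : Continuous g := by fun_prop
  have hgn : ∀ t, ‖g t‖ = ‖q P‖ * Real.exp (-2 * u.re * t) := by
    intro t
    simp only [hg]
    rw [norm_mul, norm_cexp_sp]
  have hglt : ∀ t, 0 ≤ t → ‖g t‖ < kap := by
    intro t ht
    rw [hgn]
    have h1 : Real.exp (-2 * u.re * t) ≤ 1 :=
      Real.exp_le_one_iff.mpr (by nlinarith [mul_nonneg hu.le ht])
    calc ‖q P‖ * Real.exp (-2 * u.re * t) ≤ ‖q P‖ * 1 := by gcongr
      _ < kap := by linarith
  have hregg : ∀ z ∈ Hm, ∀ t, 0 ≤ t → q z = g t → deriv q z ≠ 0 := by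
    intro z hz t ht hqz hd
    exact hreg z hz hd t ht hqz
  obtain ⟨l, hl0, hlc, hlv⟩ := PorTR.exists_lift (F.hol q hq) hgc hPH (by simp [hg]) hregg (by
    intro T hT l hl0 hlc hlv
    have hdeep : ∀ t ∈ Ico 0 T, d0 < -(l t).im := by
      intro t ht
      have hsub : Icc 0 t ⊆ Ico 0 T := fun u hu => ⟨hu.1, hu.2.trans_lt ht.2⟩
      refine F.deep hq (hlc.mono hsub) (by rw [hl0]; exact hP) (fun s hs => ?_) t ⟨ht.1, le_rfl⟩
      rw [(hlv s (hsub hs)).2]
      exact hglt s hs.1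
    refine F.tendsto_left hq hT hlc
      (C' := Real.sqrt (C / (‖q P‖ * Real.exp (-2 * u.re * T))))
      (fun t ht => ⟨(hdeep t ht).le, ?_⟩) (w := g T) ?_
    · refine F.depth_le hq (hlv t ht).1 (by positivity) ?_
      rw [(hlv t ht).2, hgn]
      have h1 : Real.exp (-2 * u.re * T) ≤ Real.exp (-2 * u.re * t) :=
        Real.exp_le_exp.mpr (by nlinarith [ht.2, mul_lt_mul_of_pos_left ht.2 hu])
      gcongr
    · have h1 : Tendsto g (𝓝[<] T) (𝓝 (g T)) := (hgc.tendsto T).mono_left nhdsWithin_le_nhds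
      refine h1.congr' ?_
      exact mem_of_superset (Ico_mem_nhdsLT hT) fun t ht => ((hlv t ht).2).symm)
  have htraj : Traj u q P l :=
    ⟨hl0, hlc, fun t ht => (hlv t ht).1, fun t ht => (hlv t ht).2,
      fun t ht => hregg _ (hlv t ht).1 t ht (hlv t ht).2⟩
  have hdeep := Traj.deep hu F hq hP hk htraj
  have hw : Tendsto (fun t => q (l t)) atTop (𝓝 0) := by
    have h1 : Tendsto g atTop (𝓝 0) := tendsto_cexp_sp hu (q P)
    refine h1.congr' ?_
    filter_upwards [eventually_ge_atTop 0] with t ht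
    exact ((hlv t ht).2).symm
  exact ⟨l, htraj, hdeep, F.tendsto_top hq hlc (fun t ht => (hdeep t ht).le) hw⟩

/-- COUNTING LEMMA (copy of `PorTR.Fam.count`: use the real numbers `‖q (l t)‖`; now
`‖q (l u') - q (l t)‖ ≤ (‖u‖ / Re u) * (‖q (l t)‖ - ‖q (l u')‖)`, because
`cexp (-2 u t) - cexp (-2 u t') = ∫ 2 u cexp (-2 u s) ds`, of norm
`≤ ∫ 2 ‖u‖ exp (-2 Re u s) ds`). -/
theorem Fam.count (hu : 0 < u.re) {W : Set (ℂ → ℂ)} {C d0 Ce kap : ℝ} (F : Fam W C d0 Ce kap)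
    (C' : ℝ) :
    ∃ N0 : ℕ, ∀ q ∈ W, ∀ (P : ℂ) (l : ℝ → ℂ), Traj u q P l → 2 * d0 ≤ -P.im → ‖q P‖ < kap →
      ∀ (n : ℕ) (t : ℕ → ℝ), 0 ≤ t 0 → (∀ i < n, t i < t (i + 1)) →
      (∀ i ≤ n, -(l (t i)).im ≤ C') → (∀ i < n, 1 ≤ dist (l (t i)) (l (t (i + 1)))) → n ≤ N0 := by
  obtain ⟨c, hc, H⟩ := F.osc 1 one_pos (C' + 1)
  set K : ℝ := ‖u‖ / u.re with hK
  have hK0 : 0 ≤ K := by positivity
  refine ⟨⌈kap * K / c⌉₊, fun q hq P l hl hP hk n t ht0 hti hd h1 => ?_⟩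
  have ht : ∀ i ≤ n, 0 ≤ t i := by
    intro i
    induction i with
    | zero => intro _; exact ht0
    | succ i ih => intro hi; exact (ih (by omega)).trans (hti i (by omega)).le
  have step : ∀ i < n, c ≤ ‖q P‖ * (K * (Real.exp (-2 * u.re * t i) -
      Real.exp (-2 * u.re * t (i + 1)))) := by
    intro i hi
    have ha := ht i hi.le
    have hab := (hti i hi).le
    have hcont : ContinuousOn l (Icc (t i) (t (i + 1))) :=
      hl.cont.mono (fun s hs => ha.trans hs.1)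
    obtain ⟨s, hs, e1, hle⟩ := PorTR.CountAux.first hab hcont (h1 i hi)
    have hmaps : MapsTo l (Icc (t i) s) (Strip d0 (C' + 1)) := by
      intro v hv
      have h2 := Traj.deep hu F hq hP hk hl v (ha.trans hv.1)
      have h3 := hle v hv
      have h4 : |(l (t i) - l v).im| ≤ ‖l (t i) - l v‖ := Complex.abs_im_le_norm _
      rw [dist_eq_norm] at h3
      have h5 := hd i hi.le
      have h6 := (abs_le.1 (h4.trans h3))
      rw [Complex.sub_im] at h6
      exact ⟨h2.le, by linarith [h6.1, h6.2]⟩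
    obtain ⟨v, hv, hcv⟩ := H q hq (t i) s l hs.1 (hcont.mono (Icc_subset_Icc_right hs.2)) hmaps
      e1.ge
    rw [hl.val v (ha.trans hv.1), hl.val (t i) ha, dist_eq_norm, ← mul_sub, norm_mul] at hcv
    have h7 := norm_cexp_sub_le hu hv.1
    have h8 : Real.exp (-2 * u.re * t (i + 1)) ≤ Real.exp (-2 * u.re * v) :=
      Real.exp_le_exp.2 (by
        have : v ≤ t (i + 1) := hv.2.trans hs.2
        nlinarith [mul_le_mul_of_nonneg_left this hu.le])
    refine hcv.trans (mul_le_mul_of_nonneg_left (h7.trans ?_) (norm_nonneg _))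
    exact mul_le_mul_of_nonneg_left (by linarith) hK0
  have sum : ∀ m ≤ n, (m : ℝ) * c ≤
      ‖q P‖ * (K * (Real.exp (-2 * u.re * t 0) - Real.exp (-2 * u.re * t m))) := by
    intro m
    induction m with
    | zero => intro _; simp
    | succ m ih =>
      intro hm
      have h2 := ih (by omega)
      have h3 := step m (by omega)
      push_cast
      nlinarith [h2, h3]
  have h9 := sum n (le_refl _)
  have h10 : Real.exp (-2 * u.re * t 0) ≤ 1 := by
    rw [Real.exp_le_one_iff]; nlinarith [mul_nonneg hu.le ht0]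
  have h11 : ‖q P‖ * (K * (Real.exp (-2 * u.re * t 0) - Real.exp (-2 * u.re * t n))) ≤
      kap * K := by
    have := Real.exp_pos (-2 * u.re * t n)
    calc _ ≤ ‖q P‖ * (K * 1) :=
          mul_le_mul_of_nonneg_left (mul_le_mul_of_nonneg_left (by linarith) hK0) (norm_nonneg _)
      _ ≤ kap * K := by
        rw [mul_one]
        exact mul_le_mul_of_nonneg_right hk.le hK0
  have h12 : (n : ℝ) ≤ kap * K / c := by
    rw [le_div_iff₀ hc]; linarith
  have h13 : (n : ℝ) ≤ (⌈kap * K / c⌉₊ : ℝ) := h12.trans (Nat.le_ceil _)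
  exact_mod_cast h13

end PorTS
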