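import Pool.Agent.Lib.MP_ae5b4e_an_TS.Defs
import Pool.Agent.Lib.MP_ae5b4e_an_TR.Uniq
import Pool.Agent.Lib.MP_ae5b4e_an_TR.Der

open Complex Filter Topology Set

namespace PorTS

open PorTR (Hm Strip Fam)

variable {u : ℂ}

/-- Copy of `PorTR.Traj.unique` (use `PorTR.eq_of_meet`). -/
theorem Traj.unique {q : ℂ → ℂ} (hq : DifferentiableOn ℂ q Hm) {P : ℂ} {l l' : ℝ → ℂ}
    (h : Traj u q P l) (h' : Traj u q P l') : ∀ t, 0 ≤ t → l t = l' t := by
  intro t ht
  refine PorTR.eq_of_meet hq (a := 0) (b := t) (s := 0) ⟨le_rfl, ht⟩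
    (h.cont.mono fun x hx => hx.1) (h'.cont.mono fun x hx => hx.1)
    (fun x hx => h.low x hx.1) (fun x hx => h.reg x hx.1) (fun x hx => ?_) ?_ t ⟨ht, le_rfl⟩
  · rw [h.val x hx.1, h'.val x hx.1]
  · rw [h.start, h'.start]

/-- The shifted trajectory (copy of `PorTR.Traj.shift`). -/
theorem Traj.shift {q : ℂ → ℂ} {P : ℂ} {l : ℝ → ℂ} (h : Traj u q P l) {s : ℝ} (hs : 0 ≤ s) :
    Traj u q (l s) (fun t => l (s + t)) := by
  refine ⟨by simp, ?_, fun t ht => h.low _ (add_nonneg hs ht), fun t ht => ?_,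
    fun t ht => h.reg _ (add_nonneg hs ht)⟩
  · exact h.cont.comp (by fun_prop) fun t ht => add_nonneg hs ht
  · have e : cexp (-2 * u * ((s + t : ℝ) : ℂ)) = cexp (-2 * u * s) * cexp (-2 * u * t) := by
      rw [← Complex.exp_add]
      congr 1
      push_cast
      ring
    rw [h.val _ (add_nonneg hs ht), h.val _ hs, e]
    ring

/-- If two descending trajectories meet, `l s = l' s'` with `s' ≤ s`, then `P'` lies on the
trajectory of `P` (copy of `PorTR.Traj.meet`; cancel `cexp (-2 * u * s') ≠ 0`). -/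
theorem Traj.meet {q : ℂ → ℂ} (hq : DifferentiableOn ℂ q Hm) {P P' : ℂ} {l l' : ℝ → ℂ}
    (h : Traj u q P l) (h' : Traj u q P' l') {s s' : ℝ} (hs' : 0 ≤ s') (hss : s' ≤ s)
    (hm : l s = l' s') : l (s - s') = P' ∧ ∀ t, 0 ≤ t → l (s - s' + t) = l' t := by
  have hss' : 0 ≤ s - s' := sub_nonneg.2 hss
  have hsh := h.shift hss'
  have h1 : ∀ t ∈ Icc (0 : ℝ) s', l (s - s' + t) = l' t := by
    refine PorTR.eq_of_meet hq (a := 0) (b := s') (s := s') (l := fun t => l (s - s' + t))
      ⟨hs', le_rfl⟩ (hsh.cont.mono fun x hx => hx.1) (h'.cont.mono fun x hx => hx.1)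
      (fun x hx => hsh.low x hx.1) (fun x hx => hsh.reg x hx.1) (fun x hx => ?_) ?_
    · have e1 := hsh.val x hx.1
      have e2 := h'.val x hx.1
      have e3 := hsh.val s' hs'
      have e4 := h'.val s' hs'
      simp only [sub_add_cancel] at e3
      rw [hm] at e3
      rw [e4] at e3
      have e5 : q P' = q (l (s - s')) := mul_right_cancel₀ (Complex.exp_ne_zero _) e3
      rw [e1, e2, e5]
    · simp only [sub_add_cancel]
      exact hm
  have h2 : l (s - s') = P' := by
    have := h1 0 ⟨le_rfl, hs'⟩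
    rwa [add_zero, h'.start] at this
  refine ⟨h2, ?_⟩
  rw [h2] at hsh
  exact hsh.unique hq h'

/-- Derivative of a trajectory (copy of `PorTR.Traj.hasDerivAt`). -/
theorem Traj.hasDerivAt {q : ℂ → ℂ} (hq : DifferentiableOn ℂ q Hm) {P : ℂ} {l : ℝ → ℂ}
    (h : Traj u q P l) {t : ℝ} (ht : 0 < t) :
    HasDerivAt l (-2 * u * q (l t) / deriv q (l t)) t := by
  have hzH : l t ∈ Hm := h.low t ht.le
  have hop : IsOpen Hm := isOpen_lt Complex.continuous_im continuous_const
  have hqa : AnalyticAt ℂ q (l t) := hq.analyticAt (hop.mem_nhds hzH)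
  have hqs : HasStrictDerivAt q (deriv q (l t)) (l t) := hqa.hasStrictDerivAt
  have hne : deriv q (l t) ≠ 0 := h.reg t ht.le
  have hlc : ContinuousAt l t := h.cont.continuousAt (Ici_mem_nhds ht)
  have e1 := hqs.eventually_left_inverse hne
  have e2 : ∀ᶠ s in 𝓝 t, hqs.localInverse q (deriv q (l t)) (l t) hne (q (l s)) = l s := hlc e1
  have e3 : ∀ᶠ s : ℝ in 𝓝 t, l s = (hqs.localInverse q (deriv q (l t)) (l t) hne)
      (q P * cexp (-2 * u * s)) := by
    filter_upwards [e2, Ioi_mem_nhds ht] with s hs hs0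
    rw [← h.val s (le_of_lt hs0), hs]
  have hin : HasDerivAt (fun s : ℝ => q P * cexp (-2 * u * s))
      (q P * (cexp (-2 * u * t) * (-2 * u))) t := by
    have h1 : HasDerivAt (fun s : ℝ => -2 * u * (s : ℂ)) (-2 * u) t := by
      simpa using (Complex.ofRealCLM.hasDerivAt (x := t)).const_mul (-2 * u)
    exact h1.cexp.const_mul _
  have hout : HasDerivAt (hqs.localInverse q (deriv q (l t)) (l t) hne) (deriv q (l t))⁻¹
      (q P * cexp (-2 * u * t)) := by
    have h1 := (hqs.to_localInverse hne).hasDerivAt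
    rwa [h.val t ht.le] at h1
  have hcomp := HasDerivAt.scomp t hout hin
  have hfin := hcomp.congr_of_eventuallyEq (f₁ := l) (by
    filter_upwards [e3] with s hs
    exact hs)
  refine hfin.congr_deriv ?_
  rw [h.val t ht.le, smul_eq_mul]
  field_simp

/-- All but countably many real `γ > 0` are generic.

Proof. The critical points of `q` in `Hm` form a countable set (as in
`PorTR.countable_not_generic`). Let `z` be a critical point with `q z = tipq γ * exp (-2 u r)`.
Then `q z ≠ 0`; put `w := log (q z)`. Since `tipq γ = exp (2 - log 4 - 2 log γ + π i)`, there is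
`k : ℤ` with `w + 2 π i k = 2 - log 4 - 2 log γ + π i - 2 u r`. Imaginary parts:
`arg (q z) + 2 π k = π - 2 r Im u`, which determines `r` (`Im u ≠ 0`); real parts:
`log |q z| = 2 - log 4 - 2 log γ - 2 r Re u`, which determines `log γ`, i.e. `γ`. So `γ` belongs to
the countable set of the values of an explicit function of `(z, k)`. -/
theorem countable_not_generic (hu : u.im ≠ 0) {q : ℂ → ℂ} (hq : DifferentiableOn ℂ q Hm)
    (hc : ¬ ∃ c : ℂ, ∀ z ∈ Hm, q z = c) :
    {γ : ℝ | 0 < γ ∧ ¬ Generic u q (tipq γ)}.Countable := by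
  have hop : IsOpen Hm := isOpen_lt Complex.continuous_im continuous_const
  have hconv : Convex ℝ Hm := convex_halfSpace_im_lt 0
  have hne : (-I : ℂ) ∈ Hm := by simp [Hm]
  have hconn : IsConnected Hm := ⟨⟨_, hne⟩, hconv.isPreconnected⟩
  have hder : AnalyticOnNhd ℂ (deriv q) Hm := (hq.analyticOnNhd hop).deriv
  obtain ⟨x, hx, hx0⟩ : ∃ x ∈ Hm, deriv q x ≠ 0 := by
    by_contra hcon
    push Not at hcon
    apply hc
    obtain ⟨c, hc'⟩ := hop.exists_is_const_of_deriv_eq_zero hconv.isPreconnected hq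
      (fun z hz => hcon z hz)
    exact ⟨c, hc'⟩
  have hcz : ({z ∈ Hm | deriv q z = 0}).Countable := by
    have h1 := hder.preimage_zero_mem_codiscreteWithin hx0 hx hconn
    have h2 : ((deriv q ⁻¹' {0}ᶜ)ᶜ ∩ Hm).Countable := by
      apply (HereditarilyLindelofSpace.isLindelof _).countable_of_isDiscrete
        (isDiscrete_of_codiscreteWithin _)
      simpa using! h1
    refine h2.mono ?_
    rintro z ⟨hz, hz0⟩
    exact ⟨by simp [hz0], hz⟩
  set R : ℂ → ℤ → ℝ := fun z k => (Real.pi - (arg (q z) + k * (2 * Real.pi))) / (2 * u.im) with hR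
  have hsub : {γ : ℝ | 0 < γ ∧ ¬ Generic u q (tipq γ)} ⊆
      ⋃ z ∈ {z ∈ Hm | deriv q z = 0}, range (fun k : ℤ =>
        Real.sqrt (Real.exp 2 * Real.exp (-2 * (R z k) * u.re) / (4 * ‖q z‖))) := by
    rintro γ ⟨hγ, hal⟩
    simp only [Generic] at hal
    push Not at hal
    obtain ⟨z, hz, hz0, r, hqz⟩ := hal
    simp only [mem_iUnion]
    refine ⟨z, ⟨hz, hz0⟩, ?_⟩
    set ρ : ℝ := Real.exp 2 / (4 * γ ^ 2) * Real.exp (-2 * r * u.re) with hρ
    have hρ0 : 0 < ρ := by positivity
    have hqz' : q z = ρ * cexp ((Real.pi - 2 * r * u.im : ℝ) * I) := by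
      rw [hqz, tipq, hρ]
      have e1 : (-2 * u * r : ℂ) = ((-2 * r * u.re : ℝ) : ℂ) + ((-2 * r * u.im : ℝ) : ℂ) * I := by
        apply Complex.ext
        · simp
          ring
        · simp
          ring
      have e2 : (((Real.pi - 2 * r * u.im : ℝ) : ℂ) * I) =
          (Real.pi : ℂ) * I + ((-2 * r * u.im : ℝ) : ℂ) * I := by
        push_cast
        ring
      rw [e1, e2, Complex.exp_add, Complex.exp_add, Complex.exp_pi_mul_I]
      push_cast
      ring
    have hnorm : ‖q z‖ = ρ := by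
      rw [hqz', norm_mul, Complex.norm_exp_ofReal_mul_I, mul_one, Complex.norm_real,
        Real.norm_of_nonneg hρ0.le]
    have harg : arg (q z) = toIocMod Real.two_pi_pos (-Real.pi) (Real.pi - 2 * r * u.im) := by
      rw [hqz', Complex.arg_real_mul _ hρ0, Complex.arg_exp_mul_I]
    refine ⟨toIocDiv Real.two_pi_pos (-Real.pi) (Real.pi - 2 * r * u.im), ?_⟩
    have h2 := toIocMod_add_toIocDiv_zsmul Real.two_pi_pos (-Real.pi) (Real.pi - 2 * r * u.im)
    rw [zsmul_eq_mul] at h2
    have hRr : R z (toIocDiv Real.two_pi_pos (-Real.pi) (Real.pi - 2 * r * u.im)) = r := by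
      simp only [hR]
      rw [harg, h2]
      field_simp
      ring
    simp only
    rw [hRr, hnorm, hρ]
    have h5 : Real.exp 2 * Real.exp (-2 * r * u.re) /
        (4 * (Real.exp 2 / (4 * γ ^ 2) * Real.exp (-2 * r * u.re))) = γ ^ 2 := by
      field_simp
    rw [h5, Real.sqrt_sq hγ.le]
  exact (hcz.biUnion fun z _ => countable_range _).mono hsub

end PorTS
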